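import Pool.Agent.Lib.MP_a247fa_nt.Dens.Attract
import Pool.Agent.Lib.MP_a247fa_nt.Dens.Additive
import Pool.Agent.Lib.MP_a247fa_nt.Dens.Rate

/-!
# Completely invariant sets of the real Collatz map are equidistributed at a power rate

Every measurable completely invariant set has a density, with absolute constants: on `[t, t+h]` up
to `500 (h t ^ (-7/100) + t ^ (-1/2))`, on `[0, X]` up to `1200 X ^ (93/100)`. Proof: the masses
`a j` of the set on `[2j, 2j+2)` are harmonic up to `8 / √j` for an averaging operator that moves at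
least a twentieth of the mass of every window `2M ≤ j < 4M` evenly to the windows `2M, ..., 3M`; by a
comparison principle the oscillation of `a` beyond `2M` is at most `19/20` of that beyond `M`, up to
`612 / √M`, and `20 / 19 > 2 ^ (7/100)`.
-/

set_option autoImplicit false

namespace Pool.Agent.Results.MP_a247fa_nt.BasinDensity

open Pool.Agent.Lib.MP_a247fa_nt Pool.Agent.Lib.MP_a247fa_nt.Dens
open Set MeasureTheory Filter Topology

/-- `B` has density `d` at a power rate, with absolute constants: on all intervals `[t, t+h]` with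
`t ≥ 1`, and on all intervals `[0, X]` with `X ≥ 1`. -/
def PowerDensity (B : Set ℝ) (d : ℝ) : Prop :=
  (∀ t h : ℝ, 1 ≤ t → 0 ≤ h → |(volume (B ∩ Icc t (t + h))).toReal - d * h| ≤
    500 * (h * t ^ (-(7 / 100) : ℝ) + 1 / √t)) ∧
  ∀ X : ℝ, 1 ≤ X → |(volume (B ∩ Icc 0 X)).toReal - d * X| ≤ 1200 * X ^ (93 / 100 : ℝ)

lemma powerDensity_of_mass {B : Set ℝ} (hBm : MeasurableSet B) (hB : CInv B) {d : ℝ}
    (hd : Tendsto (mass B) atTop (𝓝 d)) : PowerDensity B d :=
  ⟨fun _ _ ht hh => interval_rate hBm hB hd ht hh, fun _ hX => natural_rate hBm hB hd hX⟩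

/-- A density at a power rate is a natural density. -/
lemma PowerDensity.tendsto {B : Set ℝ} {d : ℝ} (h : PowerDensity B d) :
    Tendsto (fun X : ℝ => (volume (B ∩ Icc 0 X)).toReal / X) atTop (𝓝 d) := by
  have h1 : Tendsto (fun X : ℝ => 1200 * X ^ (-(7 / 100) : ℝ)) atTop (𝓝 (1200 * 0)) :=
    (tendsto_rpow_neg_atTop (by norm_num)).const_mul _
  rw [mul_zero] at h1
  rw [tendsto_iff_norm_sub_tendsto_zero]
  refine squeeze_zero' (Filter.Eventually.of_forall fun X => norm_nonneg _) ?_ h1
  filter_upwards [eventually_ge_atTop 1] with X hX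
  have hX0 : 0 < X := by linarith
  have h2 := h.2 X hX
  have h3 : (volume (B ∩ Icc 0 X)).toReal / X - d = ((volume (B ∩ Icc 0 X)).toReal - d * X) / X := by
    field_simp
  rw [Real.norm_eq_abs, h3, abs_div, abs_of_pos hX0, div_le_iff₀ hX0]
  refine h2.trans (le_of_eq ?_)
  have h4 := Real.rpow_add hX0 (-(7 / 100)) 1
  rw [Real.rpow_one] at h4
  rw [mul_assoc, ← h4]
  norm_num

lemma density_unique {B : Set ℝ} {d e : ℝ} (h1 : PowerDensity B d) (h2 : PowerDensity B e) :
    d = e := tendsto_nhds_unique h1.tendsto h2.tendsto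

lemma mass_of_powerDensity {B : Set ℝ} (hBm : MeasurableSet B) (hB : CInv B) {d : ℝ}
    (hd : PowerDensity B d) : Tendsto (mass B) atTop (𝓝 d) := by
  obtain ⟨e, he, -⟩ := mass_limit hBm hB
  rwa [density_unique hd (powerDensity_of_mass hBm hB he)]

lemma exists_density {B : Set ℝ} (hBm : MeasurableSet B) (hB : CInv B) :
    ∃ d : ℝ, 0 ≤ d ∧ PowerDensity B d ∧ (d = 0 ↔ volume (B ∩ Ici 1) = 0) := by
  obtain ⟨d, hd, hpos⟩ := mass_limit hBm hB
  refine ⟨d, ge_of_tendsto' hd (mass_nonneg B), powerDensity_of_mass hBm hB hd, ?_, ?_⟩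
  · intro h0
    by_contra hne
    exact (hpos (pos_iff_ne_zero.2 hne)).ne' h0
  · intro h0
    have h1 : ∀ᶠ k : ℕ in atTop, mass B k = 0 := by
      filter_upwards [eventually_ge_atTop 1] with k hk
      have hk' : (1 : ℝ) ≤ k := by exact_mod_cast hk
      have hsub : B ∩ Ico (2 * k : ℝ) (2 * k + 2) ⊆ B ∩ Ici 1 := by
        rintro x ⟨hx, hx1, -⟩
        refine ⟨hx, ?_⟩
        rw [mem_Ici]; linarith
      rw [mass, measure_mono_null hsub h0]; simp
    exact tendsto_nhds_unique hd (tendsto_const_nhds.congr' (h1.mono fun k hk => hk.symm))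

/-- **Density theorem.** Every measurable completely invariant set of the real Collatz map `cf` has
a density at a power rate with absolute constants (`PowerDensity`), which vanishes exactly for the
sets that are null on `[1, ∞)` and is countably additive. The basin of every attracting cycle in
`(0, ∞)` has positive density. If the points attracted neither by `{1, 2}` nor by the second known
cycle `{a, b}` have density `0`, then these two are the only attracting cycles in `(0, ∞)` and every
Collatz trajectory reaches `1`. -/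
theorem result :
    (∀ B : Set ℝ, MeasurableSet B → (∀ x : ℝ, 0 < x → (x ∈ B ↔ cf x ∈ B)) →
      ∃ d : ℝ, PowerDensity B d ∧ (d = 0 ↔ volume (B ∩ Ici 1) = 0)) ∧
    (∀ (B : ℕ → Set ℝ) (d : ℕ → ℝ), (∀ n, MeasurableSet (B n)) →
      (∀ n, ∀ x : ℝ, 0 < x → (x ∈ B n ↔ cf x ∈ B n)) →
      (∀ m n, m ≠ n → Disjoint (B m) (B n)) → (∀ n, PowerDensity (B n) (d n)) →
      ∃ s : ℝ, HasSum d s ∧ PowerDensity (⋃ n, B n) s) ∧
    (∀ x : ℝ, 0 < x → IsAttracting x → ∃ d : ℝ, 0 < d ∧ PowerDensity (attracted (orb x)) d) ∧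
    ∃ a b : ℝ, (1.192531907 < a ∧ a < 1.192531908) ∧ (2.138656335 < b ∧ b < 2.138656336) ∧
      cf a = b ∧ cf b = a ∧ ∃ d : ℝ, PowerDensity (unattracted a b) d ∧
        (d = 0 → (∀ x : ℝ, 0 < x → IsAttracting x → x = 1 ∨ x = 2 ∨ x = a ∨ x = b) ∧
          ∀ n : ℕ, 0 < n → ∃ k : ℕ, T^[k] n = 1) := by
  refine ⟨fun B hBm hB => ?_, fun B d hm hc hdisj hd => ?_,
    fun x hx0 hx => ?_, ?_⟩
  · obtain ⟨d, -, h1, h2⟩ := exists_density hBm hB
    exact ⟨d, h1, h2⟩
  · have hdis : Pairwise (Function.onFun Disjoint B) := fun m n hmn => hdisj m n hmn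
    obtain ⟨s, hs1, hs2⟩ := density_additive hm hc hdis
      fun n => mass_of_powerDensity (hm n) (hc n) (hd n)
    refine ⟨s, hs1, powerDensity_of_mass (MeasurableSet.iUnion hm) ?_ hs2⟩
    intro x hx
    simp only [mem_iUnion]
    exact exists_congr fun i => hc i x hx
  · obtain ⟨d, hd0, h1, h2⟩ := exists_density (measurableSet_attracted (orb x))
      (cinv_attracted (orb x))
    refine ⟨d, ?_, h1⟩
    refine lt_of_le_of_ne hd0 fun h => ?_
    exact (attracted_pos hx0 hx).ne' (h2.1 h.symm)
  · have hb : bPt < 5 / 2 := by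
      have := bPt_lt_digits
      linarith
    have ha : aPt < 5 / 2 := by
      have := aPt_lt_digits
      linarith
    refine ⟨aPt, bPt, ⟨aPt_gt_digits, aPt_lt_digits⟩, ⟨bPt_gt_digits, bPt_lt_digits⟩, rfl, cf_bPt, ?_⟩
    obtain ⟨d, -, h1, h2⟩ := exists_density (measurableSet_unattracted aPt bPt)
      (cinv_unattracted aPt bPt)
    refine ⟨d, h1, fun h0 => ?_⟩
    have hnull := h2.1 h0
    constructor
    · intro x hx0 hx
      by_contra hcon
      push Not at hcon
      obtain ⟨c1, c2, c3, c4⟩ := hcon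
      have hsub := attracted_subset_unattracted (a := aPt) (b := bPt) rfl cf_bPt hx.1 c1 c2 c3 c4
      have := measure_mono_null (inter_subset_inter_left (Ici 1) hsub) hnull
      exact (attracted_pos hx0 hx).ne' this
    · intro n hn
      by_contra hcon
      push Not at hcon
      have hsub := trap_subset_unattracted ha hb hn hcon
      have hn1 : (1 : ℝ) ≤ n := by exact_mod_cast hn
      have hsub2 : trapI n ⊆ unattracted aPt bPt ∩ Ici 1 := fun y hy =>
        ⟨hsub hy, hn1.trans hy.1⟩
      have h3 := measure_mono_null hsub2 hnull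
      rw [trapI, Real.volume_Icc, ENNReal.ofReal_eq_zero] at h3
      have : (0 : ℝ) < 4 / (5 * (2 * n + 1)) := by positivity
      linarith

end Pool.Agent.Results.MP_a247fa_nt.BasinDensity
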