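import Pool.Agent.Lib.MP_a247fa_nt.CE.MainE
import Pool.Agent.Lib.MP_a247fa_nt.Dens.Imm

/-!
# The critical orbits of the real Collatz map
-/

set_option autoImplicit false

namespace Pool.Agent.Results.MP_a247fa_nt.CriticalOrbits

open Pool.Agent.Lib.MP_a247fa_nt
open Set Filter MeasureTheory Topology

/-- number of elements of `S` in `[1, X]` -/
noncomputable def count (S : Set ℕ) (X : ℕ) : ℝ := ((S ∩ Icc 1 X).ncard : ℝ)

/-- the orbit of `y` under `cf` is attracted by the cycle `{1, 2}`: along one of the two residue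
classes modulo `2` the iterates tend to `1` (hence along the other one to `cf 1 = 2`) -/
def Attracted (y : ℝ) : Prop :=
  ∃ j : ℕ, Tendsto (fun k : ℕ => cf^[2 * k + j] y) atTop (𝓝 1)

/-- There are a sequence `c` and a real `p` such that, for every `m ≥ 1`, `c m` is the only critical point of `cf`
in `[m - 1/2, m + 1/2]`, and
(1) for odd `m ≥ 1` the orbit of `c m` shadows the `T`-orbit of `m` for ever;
(2) for odd `m ≥ 100` it is attracted by `{1, 2}` iff the `T`-orbit of `m` reaches `1`, and otherwise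
it stays in `[3, ∞)`;
(3) `p` is the limit of the proportion of the words of length `J` in `{odd, even}` along which the chain
`r ↦ 3 r (6 - r) / 8` (odd), `r ↦ r (r + 2) / 8` (even), started at `-1/8`, goes below `-6.705`, and
`1/20 ≤ p ≤ 199/2000`;
(4) there is `d > 0` such that the set of the integers whose `T`-orbit reaches `1` has natural density `d`,
the set of odd `m` with `c m` attracted by `{1, 2}` has natural density `d / 2`, and the set of even `m` with `c m`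
attracted by `{1, 2}` and its orbit shadowing the `T`-orbit of `m` for ever (deviation at most
`6.705 / (π² T^k m)`) has natural density `(1 - p) d / 2`;
(5), (6) for each `e < 1/20` there is `C` such that for all `N, X ≥ 1` all but at most `C N ^ (-e) X` of the odd `m ≤ X`
are such that the orbit of `c m` shadows the `T`-orbit of `m` until this has come down to `[1, N]`, and the even `m`
without this property have lower density at least `p / 2` and upper density at most `p / 2 + C N ^ (-e)`;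
(7), (8) the orbits of almost all reals come down, see below. -/
theorem result : ∃ (c : ℕ → ℝ) (p : ℝ),
    (∀ m : ℕ, 1 ≤ m → |c m - m| ≤ 1 / 2 ∧ deriv cf (c m) = 0 ∧
      ∀ y : ℝ, |y - m| ≤ 1 / 2 → deriv cf y = 0 → y = c m) ∧
    (∀ m : ℕ, m % 2 = 1 → ∀ k : ℕ, ((T^[k] m : ℕ) : ℝ) ≤ cf^[k] (c m) ∧
      cf^[k] (c m) ≤ (T^[k] m : ℕ) + 4 / (5 * (2 * ((T^[k] m : ℕ) : ℝ) + 1))) ∧
    (∀ m : ℕ, 100 ≤ m → m % 2 = 1 → (Attracted (c m) ↔ ∃ k : ℕ, T^[k] m = 1) ∧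
      (Attracted (c m) ∨ ∀ k : ℕ, 3 ≤ cf^[k] (c m))) ∧
    (1 / 20 ≤ p ∧ p ≤ 199 / 2000 ∧ Tendsto (fun J : ℕ =>
      ({w : List Bool | w.length = J ∧ CE.Low (-(1 / 8)) w}.ncard : ℝ) / 2 ^ J) atTop (𝓝 p)) ∧
    (∃ d : ℝ, 0 < d ∧
      Tendsto (fun X : ℕ => count {n : ℕ | ∃ k : ℕ, T^[k] n = 1} X / X) atTop (𝓝 d) ∧
      Tendsto (fun X : ℕ => count {m : ℕ | m % 2 = 1 ∧ Attracted (c m)} X / X) atTop (𝓝 (d / 2)) ∧
      Tendsto (fun X : ℕ => count {m : ℕ | m % 2 = 0 ∧ Attracted (c m) ∧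
        ∀ k : ℕ, |cf^[k] (c m) - (T^[k] m : ℕ)| ≤ 6.705 / (Real.pi ^ 2 * ((T^[k] m : ℕ) : ℝ))} X / X)
        atTop (𝓝 ((1 - p) * d / 2))) ∧
    (∀ e : ℝ, e < 1 / 20 → ∃ C : ℝ, ∀ N : ℕ, 1 ≤ N →
      (∀ X : ℕ, 1 ≤ X → count {m : ℕ | m % 2 = 1 ∧ ¬ ∃ j : ℕ, T^[j] m ≤ N ∧
        ∀ k ≤ j, |cf^[k] (c m) - (T^[k] m : ℕ)| ≤ 6.705 / (Real.pi ^ 2 * ((T^[k] m : ℕ) : ℝ))} X
          ≤ C * (N : ℝ) ^ (-e) * X) ∧
      (∀ ε : ℝ, 0 < ε → ∀ᶠ X : ℕ in atTop,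
        p / 2 - ε ≤ count {m : ℕ | m % 2 = 0 ∧ ¬ ∃ j : ℕ, T^[j] m ≤ N ∧
          ∀ k ≤ j, |cf^[k] (c m) - (T^[k] m : ℕ)| ≤ 6.705 / (Real.pi ^ 2 * ((T^[k] m : ℕ) : ℝ))} X / X ∧
        count {m : ℕ | m % 2 = 0 ∧ ¬ ∃ j : ℕ, T^[j] m ≤ N ∧
          ∀ k ≤ j, |cf^[k] (c m) - (T^[k] m : ℕ)| ≤ 6.705 / (Real.pi ^ 2 * ((T^[k] m : ℕ) : ℝ))} X / X
          ≤ p / 2 + C * (N : ℝ) ^ (-e) + ε)) ∧
    (∀ Y t : ℝ, 0 < Y → 0 ≤ t →
      volume ({y : ℝ | ∀ k : ℕ, Y ≤ cf^[k] y} ∩ Icc t (t + 2)) ≤ ENNReal.ofReal (4000 / √Y)) ∧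
    (∀ Y : ℝ, 0 < Y →
      {y : ℝ | ∃ x : ℝ, IsAttracting x ∧ (∀ k : ℕ, Y + 2 ≤ cf^[k] x) ∧ y ∈ Dens.immBasin x} ⊆
        {y : ℝ | ∀ k : ℕ, Y ≤ cf^[k] y}) := by
  classical
  have hex : ∀ m : ℕ, ∃ y : ℝ, 1 ≤ m → Crit.IsCrit m y ∧ ∀ z, Crit.IsCrit m z → z = y := by
    intro m
    by_cases hm : 1 ≤ m
    · obtain ⟨y, hy, hu⟩ := Crit.crit_unique m hm
      exact ⟨y, fun _ => ⟨hy, hu⟩⟩
    · exact ⟨0, fun h => absurd h hm⟩
  choose c hc using hex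
  have hcm : ∀ m : ℕ, 1 ≤ m → Crit.IsCrit m (c m) := fun m hm => (hc m hm).1
  have hatt : ∀ y : ℝ, Crit.ToOne y ↔ Attracted y := fun y => Iff.rfl
  have hset : ∀ (r : ℕ) (P Q : ℕ → ℝ → Prop), (∀ (m : ℕ) (y : ℝ), 1 ≤ m → (P m y ↔ Q m y)) → ∀ X : ℕ,
      count {m : ℕ | m % 2 = r ∧ P m (c m)} X =
        Pool.Agent.Lib.MP_e43fce_nt_nat.cnt {m : ℕ | m % 2 = r ∧ ∃ y : ℝ, Crit.IsCrit m y ∧ Q m y} X := by
    intro r P Q hPQ X
    unfold count Pool.Agent.Lib.MP_e43fce_nt_nat.cnt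
    congr 2
    ext m
    simp only [mem_inter_iff, mem_ofPred_eq, mem_Icc]
    constructor
    · rintro ⟨⟨h1, h2⟩, h3, h4⟩
      exact ⟨⟨h1, c m, hcm m h3, (hPQ m (c m) h3).1 h2⟩, h3, h4⟩
    · rintro ⟨⟨h1, y, hy, h2⟩, h3, h4⟩
      have := (hc m h3).2 y hy
      subst this
      exact ⟨⟨h1, (hPQ m (c m) h3).2 h2⟩, h3, h4⟩
  have hsh : ∀ (m k : ℕ) (y : ℝ), 1 ≤ m →
      (|cf^[k] y - (T^[k] m : ℕ)| ≤ 6.705 / (Real.pi ^ 2 * ((T^[k] m : ℕ) : ℝ)) ↔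
        CE.ShE (T^[k] m) (cf^[k] y)) := by
    intro m k y hm
    have h1 : (0 : ℝ) < ((T^[k] m : ℕ) : ℝ) := by exact_mod_cast CB.T_iter_pos' (by omega) k
    have h3 : (0 : ℝ) < Real.pi ^ 2 := by positivity
    unfold CE.ShE CE.th
    rw [abs_mul, abs_of_pos h1, le_div_iff₀ (by positivity), le_div_iff₀ h3]
    have e : |cf^[k] y - ((T^[k] m : ℕ) : ℝ)| * (Real.pi ^ 2 * ((T^[k] m : ℕ) : ℝ)) =
        |cf^[k] y - ((T^[k] m : ℕ) : ℝ)| * ((T^[k] m : ℕ) : ℝ) * Real.pi ^ 2 := by ring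
    rw [e]
    constructor <;> intro h2 <;> norm_num at h2 ⊢ <;> linarith
  have hfol : ∀ (N m : ℕ) (y : ℝ), 1 ≤ m →
      ((¬ ∃ j : ℕ, T^[j] m ≤ N ∧ ∀ k ≤ j, |cf^[k] y - (T^[k] m : ℕ)| ≤
        6.705 / (Real.pi ^ 2 * ((T^[k] m : ℕ) : ℝ))) ↔ ¬ CE.FolE N m y) := by
    intro N m y hm
    apply not_congr
    unfold CE.FolE
    constructor
    · rintro ⟨j, h1, h2⟩
      exact ⟨j, h1, fun k hk => (hsh m k y hm).1 (h2 k hk)⟩
    · rintro ⟨j, h1, h2⟩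
      exact ⟨j, h1, fun k hk => (hsh m k y hm).2 (h2 k hk)⟩
  obtain ⟨p, hp1, hp2, hp3, hp4⟩ := CE.p_exists
  refine ⟨c, p, ?_, ?_, ?_, ⟨hp1, hp2, hp3⟩, ?_, ?_, ?_, ?_⟩
  · intro m hm
    refine ⟨(hcm m hm).1, by rw [deriv_cf]; exact (hcm m hm).2, ?_⟩
    intro y hy1 hy2
    rw [deriv_cf] at hy2
    exact (hc m hm).2 y ⟨hy1, hy2⟩
  · intro m hm k
    have hm1 : 1 ≤ m := by omega
    have := (iter_mem_trap hm1 (Crit.isCrit_odd_trap hm (hcm m hm1)) k).2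
    exact ⟨this.1, this.2⟩
  · intro m hm ho
    exact (Crit.odd_orbit hm ho (hcm m (by omega))).2
  · obtain ⟨d, hd, hden⟩ := CB.one_density
    refine ⟨d, hd, CB.all_dens_cb hden, ?_, ?_⟩
    · have e := fun X : ℕ => hset 1 (fun _ y => Attracted y) (fun _ y => Crit.ToOne y)
        (fun _ _ _ => Iff.rfl) X
      refine Tendsto.congr (fun X => ?_) (CB.odd_dens_cb hden)
      rw [← e X]
    · have e := fun X : ℕ => hset 0 (fun m y => Attracted y ∧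
          ∀ k : ℕ, |cf^[k] y - (T^[k] m : ℕ)| ≤ 6.705 / (Real.pi ^ 2 * ((T^[k] m : ℕ) : ℝ)))
        (fun m y => Crit.ToOne y ∧ ∀ k : ℕ, CE.ShE (T^[k] m) (cf^[k] y))
        (fun m y hm => and_congr Iff.rfl (forall_congr' fun k => hsh m k y hm)) X
      rw [Metric.tendsto_atTop]
      intro ε hε
      obtain ⟨X1, h1⟩ := CE.dens_lowE (p := p) (by linarith) hp4 hden hd.le (half_pos hε)
      obtain ⟨X2, h2⟩ := CE.dens_upE hp3 hden hd.le (half_pos hε)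
      refine ⟨max (max X1 X2) 1, fun X hX => ?_⟩
      have hXR : (0 : ℝ) < X := by
        have : 1 ≤ X := (le_max_right _ _).trans hX
        exact_mod_cast this
      have h3 := h1 X ((le_max_left _ _).trans ((le_max_left _ _).trans hX))
      have h4 := h2 X ((le_max_right _ _).trans ((le_max_left _ _).trans hX))
      have e2 := e X
      beta_reduce at e2
      have h6 : Pool.Agent.Lib.MP_e43fce_nt_nat.cnt CE.SE X = _ := e2.symm
      rw [h6] at h3 h4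
      rw [← le_div_iff₀ hXR] at h3
      rw [← div_le_iff₀ hXR] at h4
      rw [Real.dist_eq, abs_lt]
      constructor
      · linarith
      · linarith
  · intro e he
    obtain ⟨C1, hC1, h1⟩ := CE.odd_folE he
    obtain ⟨C2, hC2, h2⟩ := CE.even_upE hp4 he
    refine ⟨C1 + C2, fun N hN => ⟨?_, ?_⟩⟩
    · intro X hX
      have hXR : (0 : ℝ) < X := by exact_mod_cast hX
      have hN0 : 0 ≤ (N : ℝ) ^ (-e) := Real.rpow_nonneg (Nat.cast_nonneg N) _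
      have e1 := hset 1 (fun m y => ¬ ∃ j : ℕ, T^[j] m ≤ N ∧
          ∀ k ≤ j, |cf^[k] y - (T^[k] m : ℕ)| ≤ 6.705 / (Real.pi ^ 2 * ((T^[k] m : ℕ) : ℝ)))
        (fun m y => ¬ CE.FolE N m y) (fun m y hm => hfol N m y hm) X
      have h3 := h1 N X hN hX
      have h4 : C1 * (N : ℝ) ^ (-e) * X ≤ (C1 + C2) * (N : ℝ) ^ (-e) * X := by
        apply mul_le_mul_of_nonneg_right _ hXR.le
        apply mul_le_mul_of_nonneg_right _ hN0
        linarith
      exact (e1.le.trans h3).trans h4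
    · intro ε hε
      obtain ⟨X0, h⟩ := h2 N hN ε hε
      obtain ⟨X3, h'⟩ := CE.even_downE hp3 N hε
      filter_upwards [eventually_ge_atTop X0, eventually_ge_atTop X3, eventually_gt_atTop 0] with X hX hX3 hX0
      have hXR : (0 : ℝ) < X := by exact_mod_cast hX0
      have hN0 : 0 ≤ (N : ℝ) ^ (-e) := Real.rpow_nonneg (Nat.cast_nonneg N) _
      have e1 := hset 0 (fun m y => ¬ ∃ j : ℕ, T^[j] m ≤ N ∧
          ∀ k ≤ j, |cf^[k] y - (T^[k] m : ℕ)| ≤ 6.705 / (Real.pi ^ 2 * ((T^[k] m : ℕ) : ℝ)))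
        (fun m y => ¬ CE.FolE N m y) (fun m y hm => hfol N m y hm) X
      constructor
      · rw [le_div_iff₀ hXR]
        exact (h' X hX3).trans e1.symm.le
      · rw [div_le_iff₀ hXR]
        have h3 := h X hX
        have h4 : (p / 2 + C2 * (N : ℝ) ^ (-e) + ε) * X
            ≤ (p / 2 + (C1 + C2) * (N : ℝ) ^ (-e) + ε) * X := by
          apply mul_le_mul_of_nonneg_right _ hXR.le
          have := mul_le_mul_of_nonneg_right (show C2 ≤ C1 + C2 by linarith) hN0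
          linarith
        exact (e1.le.trans h3).trans h4
  · intro Y t hY ht
    exact Dens.almost_bounded Y hY t ht
  · intro Y hY
    exact Dens.immediate_subset hY

end Pool.Agent.Results.MP_a247fa_nt.CriticalOrbits
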