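import Pool.Agent.Lib.MP_a247fa_nt.Cyc.Dich
import Pool.Agent.Lib.MP_a247fa_nt.Cyc.Exo
import Pool.Agent.Lib.MP_a247fa_nt.PeriodBound

/-!
# The attracting cycles of the real Collatz map

Classification of all attracting cycles of `cf` in the positive reals other than the two known
ones, and an exact reduction of the question to the cycles of the Collatz map `T` on the positive
integers and to the orbits of critical points just left of even integers.
-/

set_option autoImplicit false

namespace Pool.Agent.Results.MP_a247fa_nt.CycleStructure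

open Real Function Filter Topology Pool.Agent.Lib.MP_a247fa_nt

/-- `x` shadows a cycle of `T` through an integer above `2 * 10 ^ 7`, and its period is at least
`20000`. -/
def Shadows (x : ℝ) : Prop :=
  20000 ≤ minimalPeriod cf x ∧ ∃ m : ℕ, 20000000 < m ∧ T^[minimalPeriod cf x] m = m ∧
    ∀ k : ℕ, |cf^[k] x - (T^[k] m : ℕ)| < 1 / ((T^[k] m : ℕ) + 1)

/-- The same, with the orbit of `x` in the right neighbourhoods of the integers. -/
def ShadowsRight (x : ℝ) : Prop :=
  20000 ≤ minimalPeriod cf x ∧ ∃ m : ℕ, 20000000 < m ∧ T^[minimalPeriod cf x] m = m ∧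
    ∀ k : ℕ, ((T^[k] m : ℕ) : ℝ) ≤ cf^[k] x ∧
      cf^[k] x ≤ (T^[k] m : ℕ) + 4 / (5 * (2 * ((T^[k] m : ℕ) : ℝ) + 1))

/-- The cycle of `x` passes just left of `2m, m, T m, ..., T^5 m` for some `m` congruent to `31`
modulo `32`. -/
def Exotic (x : ℝ) : Prop :=
  ∃ k m : ℕ, m % 32 = 31 ∧
    (cf^[k] x < 2 * m ∧ 2 * m - 1 / (2 * m) < cf^[k] x) ∧
    ∀ i ≤ 5, cf^[k + 1 + i] x < (T^[i] m : ℕ) ∧
      (T^[i] m : ℕ) - 3 / ((T^[i] m : ℕ) + 1) < cf^[k + 1 + i] x

/-- There are `a, b` (the second known cycle) and critical points `c n`, the only one in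
`[2n - 1/2, 2n)`, such that
(1) for every period there are finitely many attracting cycles in the positive reals;
(2) every attracting periodic `x > 0` outside `{1, 2, a, b}` has period `p ≥ 10`, lies below
`3 ^ p * 8 ^ (2 ^ p)`, has a point above `241` on its orbit, shadows a cycle of `T` or is exotic,
and shadows a cycle of `T` from the right or attracts some `c n` and no critical point except
those `c n` for which the trajectory of `2n` exceeds `12/5 * 2n`;
(3) all attracting periodic `x > 0` are in `{1, 2, a, b}` if and only if `1, 2` are the only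
periodic positive integers of `T` and no orbit of such a `c n` accumulates at an attracting
periodic `x > 0` outside `{1, 2, a, b}`. -/
theorem result :
    ∃ (a b : ℝ) (c : ℕ → ℝ), (1.192531907 < a ∧ a < 1.192531908) ∧
      (2.138656335 < b ∧ b < 2.138656336) ∧ cf a = b ∧ cf b = a ∧
      (∀ n : ℕ, 0 < n → 2 * (n : ℝ) - 1 / 2 ≤ c n ∧ c n < 2 * n ∧ deriv cf (c n) = 0 ∧
        ∀ y : ℝ, 2 * (n : ℝ) - 1 / 2 ≤ y → y < 2 * n → deriv cf y = 0 → y = c n) ∧
      (∀ p : ℕ, {x : ℝ | 0 < x ∧ IsAttracting x ∧ minimalPeriod cf x = p}.Finite) ∧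
      (∀ x : ℝ, 0 < x → IsAttracting x → x ∉ ({1, 2, a, b} : Set ℝ) →
        10 ≤ minimalPeriod cf x ∧
        x ≤ 3 ^ minimalPeriod cf x * 8 ^ (2 ^ minimalPeriod cf x) ∧
        (∃ k, 241 < cf^[k] x) ∧
        (Shadows x ∨ Exotic x) ∧
        (ShadowsRight x ∨
          ((∃ n i : ℕ, 0 < n ∧
            Tendsto (fun k => cf^[minimalPeriod cf x * k] (c n)) atTop (𝓝 (cf^[i] x))) ∧
          ∀ y : ℝ, 0 < y → deriv cf y = 0 → MapClusterPt x atTop (fun k => cf^[k] y) →
            ∃ n : ℕ, 0 < n ∧ y = c n ∧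
              ∃ k : ℕ, 12 / 5 * (2 * (n : ℝ)) < (T^[k] (2 * n) : ℕ)))) ∧
      ((∀ x : ℝ, 0 < x → IsAttracting x → x ∈ ({1, 2, a, b} : Set ℝ)) ↔
        (∀ m : ℕ, 0 < m → m ∈ periodicPts T → m = 1 ∨ m = 2) ∧
        ∀ n : ℕ, 0 < n → (∃ k : ℕ, 12 / 5 * (2 * (n : ℝ)) < (T^[k] (2 * n) : ℕ)) →
          ∀ x : ℝ, 0 < x → IsAttracting x → MapClusterPt x atTop (fun k => cf^[k] (c n)) →
            x ∈ ({1, 2, a, b} : Set ℝ)) := by
  refine ⟨aPt, bPt, Cyc.crit, ⟨aPt_gt_digits, aPt_lt_digits⟩, ⟨bPt_gt_digits, bPt_lt_digits⟩, rfl,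
    cf_bPt, Cyc.crit_spec, ?_, ?_, ?_⟩
  · intro p
    rcases Nat.eq_zero_or_pos p with rfl | hp
    · convert Set.finite_empty (α := ℝ)
      ext x
      simp only [Set.mem_setOf_eq, Set.mem_empty_iff_false, iff_false, not_and]
      intro _ ha h0
      have := ha.1
      omega
    · apply (attracting_period_finite p hp).subset
      rintro x ⟨hx, hatt, hmin⟩
      have h1 : Function.IsPeriodicPt cf (Function.minimalPeriod cf x) x :=
        Function.isPeriodicPt_minimalPeriod cf x
      have h2 := hatt.2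
      rw [hmin] at h1 h2
      exact ⟨hx, h1, h2⟩
  · intro x hx ha hne
    have hne' : x ≠ 1 ∧ x ≠ 2 ∧ x ≠ aPt ∧ x ≠ bPt := by
      simpa only [Set.mem_insert_iff, Set.mem_singleton_iff, not_or] using hne
    obtain ⟨h10, h241, hor⟩ := Exo.exotic_structure hx ha hne'.1 hne'.2.1 hne'.2.2.1 hne'.2.2.2
    have hper : Function.IsPeriodicPt cf (Function.minimalPeriod cf x) x :=
      Function.isPeriodicPt_minimalPeriod cf x
    refine ⟨h10, attracting_period_le hx ha.1 hper ha.2, h241, ?_, Cyc.dichotomy hx ha hne⟩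
    rcases hor with ⟨n, hn, hTn, hk⟩ | h
    · left
      have h5 : n ≠ 1 := by omega
      have h6 : n ≠ 2 := by omega
      have h7 := Cyc.huge_of_periodic (by omega) ha.1 hTn h5 h6 0
      simp only [Function.iterate_zero_apply] at h7
      exact ⟨Cyc.very_long_of_periodic (by omega) ha.1 hTn h5 h6, n, by omega, hTn, hk⟩
    · exact Or.inr h
  · constructor
    · intro hQ
      refine ⟨?_, fun n _ _ x hx0 ha _ => hQ x hx0 ha⟩
      intro m hm hper
      obtain ⟨p, hp, hpm⟩ := hper
      have ha : IsAttracting (m : ℝ) := isAttracting_natCast hm hp hpm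
      have hmem := hQ m (by exact_mod_cast hm) ha
      have hA1 := aPt_gt_digits
      have hA2 := aPt_lt_digits
      have hB1 := bPt_gt_digits
      have hB2 := bPt_lt_digits
      rcases hmem with h | h | h | h
      · left; exact_mod_cast h
      · right; exact_mod_cast h
      · exfalso
        rw [← h] at hA1 hA2
        have h3 : (1 : ℝ) < m := by linarith
        have h4 : (m : ℝ) < 2 := by linarith
        have h3' : 1 < m := by exact_mod_cast h3
        have h4' : m < 2 := by exact_mod_cast h4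
        omega
      · exfalso
        have h' : (m : ℝ) = bPt := h
        rw [← h'] at hB1 hB2
        have h3 : (2 : ℝ) < m := by linarith
        have h4 : (m : ℝ) < 3 := by linarith
        have h3' : 2 < m := by exact_mod_cast h3
        have h4' : m < 3 := by exact_mod_cast h4
        omega
    · rintro ⟨hT, hC⟩ x hx0 ha
      by_contra hne
      rcases Cyc.dichotomy hx0 ha hne with ⟨-, m, hm, hTm, -⟩ | ⟨⟨n, i, hn, hten⟩, hall⟩
      · have := hT m (by omega) ⟨_, ha.1, hTm⟩
        omega
      · have hper : cf^[minimalPeriod cf x] x = x := isPeriodicPt_minimalPeriod cf x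
        have hcl := Cyc.cluster_of_tendsto ha.1 hper hten
        have hcs := Cyc.crit_spec n hn
        have hc0 : 0 < Cyc.crit n := by
          have : (1 : ℝ) ≤ n := by exact_mod_cast hn
          linarith [hcs.1]
        obtain ⟨n', hn', heq, hk⟩ := hall (Cyc.crit n) hc0 hcs.2.2.1 hcl
        rw [heq] at hcl
        exact hne (hC n' hn' hk x hx0 ha hcl)

end Pool.Agent.Results.MP_a247fa_nt.CycleStructure
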