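import Pool.Agent.Lib.MP_a247fa_nt.Dens.Attract
import Pool.Agent.Lib.MP_a247fa_nt.Dens.Additive
import Pool.Agent.Lib.MP_a247fa_nt.X.Tenth

/-!
# Nine tenths of every unit interval are attracted by the two known cycles of the real Collatz map
-/

set_option autoImplicit false

namespace Pool.Agent.Results.MP_a247fa_nt.NineTenths

open Pool.Agent.Lib.MP_a247fa_nt Pool.Agent.Lib.MP_a247fa_nt.Dens
open Set MeasureTheory Filter Topology

lemma cinv_union {A B : Set ℝ} (hA : CInv A) (hB : CInv B) : CInv (A ∪ B) := fun x hx =>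
  or_congr (hA x hx) (hB x hx)

/-- At least nine tenths of `(n, n+1)` are attracted by one of the two known cycles. -/
lemma nine_tenths {n : ℕ} (hn : 1 ≤ n) : ENNReal.ofReal (9 / 10) ≤
    volume ((attracted {1, 2} ∪ attracted {aPt, bPt}) ∩ Ioo (n : ℝ) (n + 1)) := by
  have hm : MeasurableSet (attracted {1, 2} ∪ attracted {aPt, bPt}) :=
    (measurableSet_attracted _).union (measurableSet_attracted _)
  have h1 : volume (Ioo (n : ℝ) (n + 1) \ (attracted {1, 2} ∪ attracted {aPt, bPt})) ≤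
      ENNReal.ofReal (1 / 10) := by
    refine (measure_mono ?_).trans (X.nonconv_tenth hn)
    rintro y ⟨⟨h3, h4⟩, h5⟩
    exact ⟨h3, h4, h5⟩
  have h2 : volume (Ioo (n : ℝ) (n + 1)) = 1 := by
    rw [Real.volume_Ioo]; simp
  have h3 := measure_inter_add_sdiff (μ := volume) (Ioo (n : ℝ) (n + 1)) hm
  rw [h2, inter_comm] at h3
  obtain ⟨u, hu⟩ : ∃ u, u = volume ((attracted {1, 2} ∪ attracted {aPt, bPt}) ∩ Ioo (n : ℝ) (n + 1)) := ⟨_, rfl⟩
  rw [← hu] at h3 ⊢
  have h4 : (1 : ENNReal) ≤ u + ENNReal.ofReal (1 / 10) := by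
    rw [← h3]; gcongr
  have h5 : ENNReal.ofReal (9 / 10) + ENNReal.ofReal (1 / 10) ≤ u + ENNReal.ofReal (1 / 10) := by
    rw [← ENNReal.ofReal_add (by norm_num) (by norm_num)]
    norm_num
    norm_num at h4
    exact h4
  exact (ENNReal.add_le_add_iff_right ENNReal.ofReal_ne_top).1 h5

/-- **Nine tenths theorem.** For every integer `n ≥ 1` at least nine tenths of `(n, n+1)` are attracted by one of
the two known attracting cycles `{1, 2}`, `{a, b}` of the real Collatz map `cf`. The basin of every other attracting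
cycle in `(0, ∞)` lies in the rest, and the set attracted by the two known cycles has a natural density `d ≥ 9/10`. -/
theorem result :
    ∃ a b : ℝ, (1.192531907 < a ∧ a < 1.192531908) ∧ (2.138656335 < b ∧ b < 2.138656336) ∧
      cf a = b ∧ cf b = a ∧
      (∀ n : ℕ, 1 ≤ n → ENNReal.ofReal (9 / 10) ≤
        volume ((attracted {1, 2} ∪ attracted {a, b}) ∩ Ioo (n : ℝ) (n + 1))) ∧
      (∀ x : ℝ, 0 < x → IsAttracting x → x ≠ 1 → x ≠ 2 → x ≠ a → x ≠ b →
        Disjoint (attracted (orb x)) (attracted {1, 2} ∪ attracted {a, b})) ∧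
      ∃ d : ℝ, 9 / 10 ≤ d ∧ HasDensity (attracted {1, 2} ∪ attracted {a, b}) d := by
  refine ⟨aPt, bPt, ⟨aPt_gt_digits, aPt_lt_digits⟩, ⟨bPt_gt_digits, bPt_lt_digits⟩, rfl, cf_bPt,
    fun n hn => nine_tenths hn, fun x hx0 hx c1 c2 c3 c4 => ?_, ?_⟩
  · have h := attracted_subset_unattracted (a := aPt) (b := bPt) rfl cf_bPt hx.1 c1 c2 c3 c4
    rw [Set.disjoint_left]
    intro y hy h2
    obtain ⟨-, h3, h4⟩ := h hy
    exact h2.elim h3 h4
  · have hm : MeasurableSet (attracted {1, 2} ∪ attracted {aPt, bPt}) :=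
      (measurableSet_attracted _).union (measurableSet_attracted _)
    have hc : CInv (attracted {1, 2} ∪ attracted {aPt, bPt}) :=
      cinv_union (cinv_attracted _) (cinv_attracted _)
    obtain ⟨d, hd, -⟩ := mass_limit hm hc
    have hD : HasDensity (attracted {1, 2} ∪ attracted {aPt, bPt}) d :=
      ⟨fun _ hh => local_density hm hc hd hh, natural_density hm hd⟩
    refine ⟨d, ?_, hD⟩
    have h3 := (hD.1 1 one_pos).comp tendsto_natCast_atTop_atTop
    refine ge_of_tendsto h3 ?_
    filter_upwards [eventually_ge_atTop 1] with n hn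
    have h4 := nine_tenths hn
    have h5 : volume ((attracted {1, 2} ∪ attracted {aPt, bPt}) ∩ Ioo (n : ℝ) (n + 1)) ≤
        volume ((attracted {1, 2} ∪ attracted {aPt, bPt}) ∩ Icc (n : ℝ) (n + 1)) :=
      measure_mono (inter_subset_inter_right _ Ioo_subset_Icc_self)
    have h6 : volume ((attracted {1, 2} ∪ attracted {aPt, bPt}) ∩ Icc (n : ℝ) (n + 1)) ≠ ⊤ :=
      ((measure_mono inter_subset_right).trans_lt (measure_Icc_lt_top)).ne
    have h7 := (ENNReal.ofReal_le_iff_le_toReal h6).1 (h4.trans h5)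
    simpa using h7

end Pool.Agent.Results.MP_a247fa_nt.NineTenths
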